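import Pool.Agent.H.MP_488bb9_co.B

namespace Pool.Agent.Results.MP_488bb9_co.Formula

open Pool.Agent.H.MP_488bb9_co

theorem result {V : Type} [Fintype V] [PartialOrder V] (hF : Forest V) (c : V → Bool) (m : ℤ) :
    HasValue c Finset.univ m ↔ m = ∑ r ∈ roots Finset.univ, val c Finset.univ r :=
  main hF (fun _ _ _ _ _ _ _ => Finset.mem_univ _) m

end Pool.Agent.Results.MP_488bb9_co.Formula
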